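import Mathlib

namespace Pool.Agent.Results.MP_b3a091_al.Factor

open Set Pointwise

universe u

/-- working form of the conclusion -/
def Fac (G : Type u) [Group G] : Prop :=
  ∃ A B : Set G, A.Infinite ∧ B.Infinite ∧ (∀ g, ∃ a ∈ A, ∃ b ∈ B, a * b = g) ∧
    ∀ a ∈ A, ∀ b ∈ B, ∀ a' ∈ A, ∀ b' ∈ B, a * b = a' * b' → a = a'

lemma bot_inf (K : Type u) [Group K] [Infinite K] : ¬ (⊥ : Subgroup K).FiniteIndex := by
  intro h
  have := h.index_ne_zero
  rw [Subgroup.index_bot] at this
  exact this Nat.card_eq_zero_of_infinite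

lemma avoid {K : Type u} [Group K] [Infinite K] {ι : Type u} (F : Finset K) (s : Finset ι)
    (c : ι → K) (H : ι → Subgroup K) (hH : ∀ i ∈ s, ¬ (H i).FiniteIndex) :
    ∃ x, x ∉ F ∧ ∀ i ∈ s, (c i)⁻¹ * x ∉ H i := by
  by_contra hn
  push Not at hn
  have hc : ⋃ i ∈ F.disjSum s, (Sum.elim id c i) • ((Sum.elim (fun _ => ⊥) H i : Subgroup K) : Set K)
      = univ := by
    refine eq_univ_of_forall fun x => ?_
    by_cases hx : x ∈ F
    · refine mem_iUnion₂.2 ⟨Sum.inl x, by simpa using hx, ?_⟩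
      simp
    · obtain ⟨i, hi, h⟩ := hn x hx
      refine mem_iUnion₂.2 ⟨Sum.inr i, by simpa using hi, ?_⟩
      simpa [mem_smul_set_iff_inv_smul_mem] using h
  obtain ⟨k, hk, hf⟩ := Subgroup.exists_finiteIndex_of_leftCoset_cover hc
  rcases k with x | i
  · exact bot_inf K hf
  · exact hH i (by simpa using hk) hf

/-- multiplication is injective on `A × B` -/
def Inj {K : Type u} [Group K] (A B : Finset K) : Prop :=
  ∀ a ∈ A, ∀ b ∈ B, ∀ a' ∈ A, ∀ b' ∈ B, a * b = a' * b' → a = a'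

lemma step {K : Type u} [Group K] [Infinite K] [DecidableEq K]
    (h : ∀ v : K, v ≠ 1 → ∃ (H : Subgroup K) (c : K), ¬ H.FiniteIndex ∧
      ∀ x, x * x = v → c⁻¹ * x ∈ H)
    (A B : Finset K) (hAB : Inj A B) (g : K) (hg : g ∉ A * B) :
    ∃ a b, a ∉ A ∧ b ∉ B ∧ a * b = g ∧ Inj (insert a A) (insert b B) := by
  have h' : ∀ p : K × K, ∃ (H : Subgroup K) (c : K), p ∈ A ×ˢ B → ¬ H.FiniteIndex ∧
      ∀ x, x * p.2 = p.1 * (x⁻¹ * g) → c⁻¹ * x ∈ H := by
    rintro ⟨a, b⟩
    by_cases hp : (a, b) ∈ A ×ˢ B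
    · have hne : b * g⁻¹ * a ≠ 1 := by
        intro e
        apply hg
        have : g = a * b := by
          calc g = a * (b * g⁻¹ * a) * a⁻¹ * g := by rw [e]; group
            _ = a * b * g⁻¹ * g := by group
            _ = a * b := by group
        rw [this]
        exact Finset.mul_mem_mul (Finset.mem_product.1 hp).1 (Finset.mem_product.1 hp).2
      obtain ⟨H, c, h1, h2⟩ := h _ hne
      refine ⟨H, (b * g⁻¹)⁻¹ * c, fun _ => ⟨h1, fun x hx => ?_⟩⟩
      have := h2 (b * g⁻¹ * x) (by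
        calc b * g⁻¹ * x * (b * g⁻¹ * x) = b * g⁻¹ * (x * b) * g⁻¹ * x := by group
          _ = b * g⁻¹ * a := by rw [hx]; group)
      convert this using 1
      group
    · exact ⟨⊥, 1, fun e => absurd e hp⟩
  choose H c hH using h'
  obtain ⟨x, hxF, hx⟩ := avoid (A ∪ A * B * B⁻¹ ∪ {g} * B⁻¹ * A⁻¹ * A ∪ {g} * B⁻¹) (A ×ˢ B) c H
    fun p hp => (hH p hp).1
  simp only [Finset.mem_union, not_or] at hxF
  obtain ⟨⟨⟨x1, x2⟩, x3⟩, x4⟩ := hxF
  have q : ∀ a ∈ A, ∀ b ∈ B, x * b ≠ a * (x⁻¹ * g) := fun a ha b hb e =>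
    hx (a, b) (Finset.mk_mem_product ha hb) ((hH (a, b) (Finset.mk_mem_product ha hb)).2 x e)
  have q2 : ∀ a ∈ A, ∀ b ∈ B, ∀ b' ∈ B, x * b' ≠ a * b := fun a ha b hb b' hb' e => x2 (by
    have : x = a * b * b'⁻¹ := by rw [← e]; group
    rw [this]
    exact Finset.mul_mem_mul (Finset.mul_mem_mul ha hb) (Finset.inv_mem_inv hb'))
  have q3 : ∀ a ∈ A, ∀ b ∈ B, ∀ a' ∈ A, a' * (x⁻¹ * g) ≠ a * b := fun a ha b hb a' ha' e => x3 (by
    have : x = g * b⁻¹ * a⁻¹ * a' := by
      calc x = g * (a' * (x⁻¹ * g))⁻¹ * a' := by group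
        _ = g * b⁻¹ * a⁻¹ * a' := by rw [e]; group
    rw [this]
    exact Finset.mul_mem_mul (Finset.mul_mem_mul (Finset.mul_mem_mul (Finset.mem_singleton_self g)
      (Finset.inv_mem_inv hb)) (Finset.inv_mem_inv ha)) ha')
  have q4 : x⁻¹ * g ∉ B := fun hb => x4 (by
    have : x = g * (x⁻¹ * g)⁻¹ := by group
    rw [this]
    refine Finset.mul_mem_mul (Finset.mem_singleton_self g) (Finset.inv_mem_inv ?_)
    simpa using hb)
  have q5 : ∀ a ∈ A, ∀ b ∈ B, x * (x⁻¹ * g) ≠ a * b := fun a ha b hb e => hg (by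
    have : g = a * b := by rw [← e]; group
    rw [this]
    exact Finset.mul_mem_mul ha hb)
  refine ⟨x, x⁻¹ * g, x1, q4, by group, ?_⟩
  intro a ha b hb a' ha' b' hb' e
  rw [Finset.mem_insert] at ha hb ha' hb'
  rcases ha with rfl | ha <;> rcases ha' with rfl | ha'
  · rfl
  · rcases hb with rfl | hb <;> rcases hb' with rfl | hb'
    · exact mul_right_cancel e
    · exact absurd e (q5 _ ha' _ hb')
    · exact absurd e (q _ ha' _ hb)
    · exact absurd e (q2 _ ha' _ hb' _ hb)
  · rcases hb with rfl | hb <;> rcases hb' with rfl | hb'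
    · exact mul_right_cancel e
    · exact absurd e.symm (q _ ha _ hb')
    · exact absurd e.symm (q5 _ ha _ hb)
    · exact absurd e.symm (q2 _ ha _ hb _ hb')
  · rcases hb with rfl | hb <;> rcases hb' with rfl | hb'
    · exact mul_right_cancel e
    · exact absurd e (q3 _ ha' _ hb' _ ha)
    · exact absurd e.symm (q3 _ ha _ hb _ ha')
    · exact hAB _ ha _ hb _ ha' _ hb' e

lemma greedy (K : Type u) [Group K] [Infinite K] [Countable K]
    (h : ∀ v : K, v ≠ 1 → ∃ (H : Subgroup K) (c : K), ¬ H.FiniteIndex ∧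
      ∀ x, x * x = v → c⁻¹ * x ∈ H) : Fac K := by
  classical
  obtain ⟨e, he⟩ := exists_surjective_nat K
  have st : ∀ (n : ℕ) (p : {p : Finset K × Finset K // Inj p.1 p.2}),
      ∃ q : {p : Finset K × Finset K // Inj p.1 p.2}, p.1.1 ⊆ q.1.1 ∧ p.1.2 ⊆ q.1.2 ∧
        q.1.1.card = p.1.1.card + 1 ∧ q.1.2.card = p.1.2.card + 1 ∧ e n ∈ q.1.1 * q.1.2 := by
    rintro n ⟨⟨A, B⟩, hAB⟩
    by_cases hn : e n ∈ A * B
    · obtain ⟨g, hg⟩ := Infinite.exists_notMem_finset (A * B)
      obtain ⟨a, b, ha, hb, -, hi⟩ := step h A B hAB g hg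
      exact ⟨⟨(insert a A, insert b B), hi⟩, Finset.subset_insert _ _, Finset.subset_insert _ _,
        Finset.card_insert_of_notMem ha, Finset.card_insert_of_notMem hb,
        Finset.mul_subset_mul (Finset.subset_insert _ _) (Finset.subset_insert _ _) hn⟩
    · obtain ⟨a, b, ha, hb, hab, hi⟩ := step h A B hAB _ hn
      exact ⟨⟨(insert a A, insert b B), hi⟩, Finset.subset_insert _ _, Finset.subset_insert _ _,
        Finset.card_insert_of_notMem ha, Finset.card_insert_of_notMem hb,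
        hab ▸ Finset.mul_mem_mul (Finset.mem_insert_self _ _) (Finset.mem_insert_self _ _)⟩
  choose nx h1 h2 h3 h4 h5 using st
  let P : ℕ → {p : Finset K × Finset K // Inj p.1 p.2} := fun n =>
    Nat.rec ⟨(∅, ∅), fun a ha => absurd ha (by simp)⟩ nx n
  have hP : ∀ n, P (n + 1) = nx n (P n) := fun n => rfl
  have m1 : Monotone fun n => (P n).1.1 := monotone_nat_of_le_succ fun n => h1 n (P n)
  have m2 : Monotone fun n => (P n).1.2 := monotone_nat_of_le_succ fun n => h2 n (P n)
  have c1 : ∀ n, (P n).1.1.card = n := by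
    intro n
    induction n with
    | zero => rfl
    | succ n ih => rw [hP, h3, ih]
  have c2 : ∀ n, (P n).1.2.card = n := by
    intro n
    induction n with
    | zero => rfl
    | succ n ih => rw [hP, h4, ih]
  have inf : ∀ S : ℕ → Finset K, (∀ n, (S n).card = n) → (⋃ n, (S n : Set K)).Infinite := by
    intro S hS hf
    have : S (hf.toFinset.card + 1) ⊆ hf.toFinset := fun x hx =>
      hf.mem_toFinset.2 (mem_iUnion.2 ⟨_, hx⟩)
    have := Finset.card_le_card this
    rw [hS] at this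
    omega
  refine ⟨⋃ n, ((P n).1.1 : Set K), ⋃ n, ((P n).1.2 : Set K), inf _ c1, inf _ c2, ?_, ?_⟩
  · intro g
    obtain ⟨n, rfl⟩ := he g
    obtain ⟨a, ha, b, hb, hab⟩ := Finset.mem_mul.1 (h5 n (P n))
    exact ⟨a, mem_iUnion.2 ⟨n + 1, ha⟩, b, mem_iUnion.2 ⟨n + 1, hb⟩, hab⟩
  · intro a ha b hb a' ha' b' hb' hab
    obtain ⟨n1, ha⟩ := mem_iUnion.1 ha
    obtain ⟨n2, hb⟩ := mem_iUnion.1 hb
    obtain ⟨n3, ha'⟩ := mem_iUnion.1 ha'
    obtain ⟨n4, hb'⟩ := mem_iUnion.1 hb'
    exact (P (n1 + n2 + n3 + n4)).2 a (m1 (by omega) ha) b (m2 (by omega) hb) a' (m1 (by omega) ha')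
      b' (m2 (by omega) hb') hab

lemma of_sub {G : Type u} [Group G] (H : Subgroup G) (h : Fac H) : Fac G := by
  obtain ⟨A, B, hA, hB, hs, hi⟩ := h
  obtain ⟨T, hT, h1⟩ := H.exists_isComplement_right 1
  refine ⟨Subtype.val '' A, (Subtype.val '' B) * T, hA.image Subtype.val_injective.injOn,
    (hB.image Subtype.val_injective.injOn).mono fun x hx => ⟨x, hx, 1, h1, mul_one x⟩, ?_, ?_⟩
  · intro g
    obtain ⟨⟨x, t⟩, e⟩ := hT.2 g
    obtain ⟨a, ha, b, hb, hab⟩ := hs x
    refine ⟨a, ⟨a, ha, rfl⟩, b * t, ⟨b, ⟨b, hb, rfl⟩, t, t.2, rfl⟩, ?_⟩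
    rw [← mul_assoc, ← Subgroup.coe_mul, hab]
    exact e
  · rintro _ ⟨a, ha, rfl⟩ _ ⟨_, ⟨b, hb, rfl⟩, t, ht, rfl⟩ _ ⟨a', ha', rfl⟩ _
      ⟨_, ⟨b', hb', rfl⟩, t', ht', rfl⟩ e
    have := @hT.1 (a * b, ⟨t, ht⟩) (a' * b', ⟨t', ht'⟩) (by simpa [mul_assoc] using e)
    rw [hi a ha b hb a' ha' b' hb' (congrArg Prod.fst this)]

lemma of_quot {G Q : Type u} [Group G] [Group Q] (f : G →* Q) (hf : Function.Surjective f)
    (h : Fac Q) : Fac G := by
  obtain ⟨A, B, hA, hB, hs, hi⟩ := h
  have hr := Function.surjInv_eq hf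
  refine ⟨Function.surjInv hf '' A, f ⁻¹' B, hA.image (Function.injective_surjInv hf).injOn,
    hB.preimage (by rw [hf.range_eq]; exact subset_univ _), ?_, ?_⟩
  · intro g
    obtain ⟨a, ha, b, hb, hab⟩ := hs (f g)
    refine ⟨_, ⟨a, ha, rfl⟩, (Function.surjInv hf a)⁻¹ * g, ?_, by group⟩
    show f _ ∈ B
    rw [map_mul, map_inv, hr, ← hab, inv_mul_cancel_left]
    exact hb
  · rintro _ ⟨a, ha, rfl⟩ b hb _ ⟨a', ha', rfl⟩ b' hb' e
    have := congrArg f e
    rw [map_mul, map_mul, hr, hr] at this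
    rw [hi a ha _ hb a' ha' _ hb' this]

lemma comm_case (K : Type u) [Group K] [Infinite K] [Countable K]
    (hc : ∀ x y : K, x * y = y * x) : Fac K := by
  let : CommGroup K := { (inferInstance : Group K) with mul_comm := hc }
  let T : Subgroup K :=
    { carrier := {x | x * x = 1}
      mul_mem' := fun {a b} ha hb => by
        show a * b * (a * b) = 1
        rw [mul_mul_mul_comm, show a * a = 1 from ha, show b * b = 1 from hb, one_mul]
      one_mem' := mul_one 1
      inv_mem' := fun {a} ha => by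
        show a⁻¹ * a⁻¹ = 1
        rw [← mul_inv_rev, show a * a = 1 from ha, inv_one] }
  by_cases hT : T.FiniteIndex
  · have : Infinite T := by
      by_contra hn
      rw [not_infinite_iff_finite] at hn
      have := T.index_mul_card
      rw [Nat.card_eq_zero_of_infinite (α := K)] at this
      exact mul_ne_zero hT.index_ne_zero Nat.card_pos.ne' this
    refine of_sub T (greedy T fun v hv => ⟨⊥, 1, bot_inf T, fun x hx => absurd ?_ hv⟩)
    rw [← hx]
    exact Subtype.ext x.2
  · refine greedy K fun v _ => ?_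
    by_cases hv : ∃ c, c * c = v
    · obtain ⟨c, hcv⟩ := hv
      refine ⟨T, c, hT, fun x hx => ?_⟩
      show c⁻¹ * x * (c⁻¹ * x) = 1
      rw [mul_mul_mul_comm, ← mul_inv_rev, hcv, hx, inv_mul_cancel]
    · exact ⟨T, 1, hT, fun x hx => absurd ⟨x, hx⟩ hv⟩

lemma cent_iff {G : Type u} [Group G] (g : G) :
    (Subgroup.centralizer {g}).FiniteIndex ↔ (range fun x => x * g * x⁻¹).Finite := by
  have key : ∀ x y : G, x⁻¹ * y ∈ Subgroup.centralizer {g} ↔ x * g * x⁻¹ = y * g * y⁻¹ := by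
    intro x y
    rw [Subgroup.mem_centralizer_singleton_iff]
    constructor
    · intro e
      calc x * g * x⁻¹ = x * (g * (x⁻¹ * y)) * y⁻¹ := by group
        _ = y * g * y⁻¹ := by rw [← e]; group
    · intro e
      calc x⁻¹ * y * g = x⁻¹ * (y * g * y⁻¹) * y := by group
        _ = g * (x⁻¹ * y) := by rw [← e]; group
  constructor
  · intro h
    refine (finite_range fun q : G ⧸ Subgroup.centralizer {g} => q.out * g * q.out⁻¹).subset ?_
    rintro _ ⟨x, rfl⟩
    refine ⟨(x : G ⧸ Subgroup.centralizer {g}), (key _ _).1 ?_⟩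
    exact QuotientGroup.eq.1 (QuotientGroup.out_eq' _)
  · intro h
    have : Finite (G ⧸ Subgroup.centralizer {g}) := by
      have := h.to_subtype
      refine Finite.of_injective (β := range fun x => x * g * x⁻¹)
        (fun q : G ⧸ Subgroup.centralizer {g} => ⟨q.out * g * q.out⁻¹, q.out, rfl⟩) ?_
      intro p q e
      have := QuotientGroup.eq.2 ((key _ _).2 (congrArg Subtype.val e))
      rwa [QuotientGroup.out_eq', QuotientGroup.out_eq'] at this
    exact Subgroup.finiteIndex_of_finite_quotient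

/-- elements with finitely many conjugates -/
def FC (G : Type u) [Group G] : Subgroup G where
  carrier := {g | (range fun x => x * g * x⁻¹).Finite}
  mul_mem' := fun {a b} ha hb => (Set.Finite.mul ha hb).subset (by
    rintro _ ⟨x, rfl⟩
    exact ⟨_, ⟨x, rfl⟩, _, ⟨x, rfl⟩, by simp only; group⟩)
  one_mem' := (finite_singleton (1 : G)).subset (by
    rintro _ ⟨x, rfl⟩
    simp)
  inv_mem' := fun {a} ha => (Set.Finite.inv ha).subset (by
    rintro _ ⟨x, rfl⟩
    exact ⟨x, by simp only; group⟩)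

lemma FC_normal (G : Type u) [Group G] : (FC G).Normal := ⟨fun n hn g =>
  Set.Finite.subset hn (by
    rintro _ ⟨x, rfl⟩
    exact ⟨x * g, by simp only; group⟩)⟩

lemma main (G : Type u) [Group G] [Infinite G] [Countable G] : Fac G := by
  classical
  have := FC_normal G
  rcases finite_or_infinite (FC G) with hF | hF
  · have : Infinite (G ⧸ FC G) := by
      by_contra hn
      rw [not_infinite_iff_finite] at hn
      have := (FC G).index_mul_card
      rw [Nat.card_eq_zero_of_infinite (α := G)] at this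
      exact mul_ne_zero Subgroup.index_ne_zero_of_finite Nat.card_pos.ne' this
    have : Countable (G ⧸ FC G) := (QuotientGroup.mk'_surjective (FC G)).countable
    refine of_quot (QuotientGroup.mk' (FC G)) (QuotientGroup.mk'_surjective _)
      (greedy _ fun v hv => ⟨Subgroup.centralizer {v}, 1, fun hi => hv ?_, fun x hx => ?_⟩)
    · obtain ⟨g, rfl⟩ := QuotientGroup.mk'_surjective (FC G) v
      rw [QuotientGroup.mk'_apply, QuotientGroup.eq_one_iff]
      have h1 := (cent_iff _).1 hi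
      have h2 : ((fun q : G ⧸ FC G => q.out) '' (range fun x => x * QuotientGroup.mk' (FC G) g * x⁻¹)
          * (FC G : Set G)).Finite := (h1.image _).mul (toFinite _)
      refine h2.subset ?_
      rintro _ ⟨x, rfl⟩
      refine ⟨_, ⟨_, ⟨(x : G ⧸ FC G), rfl⟩, rfl⟩, _, ?_, mul_inv_cancel_left _ _⟩
      refine QuotientGroup.eq.1 ?_
      rw [QuotientGroup.out_eq']
      simp
    · rw [inv_one, one_mul, Subgroup.mem_centralizer_singleton_iff, ← hx, mul_assoc]
  · obtain ⟨f, -, hf⟩ := exists_seq_of_forall_finset_exists (fun x : G => x ∈ FC G)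
      (fun x y => x ≠ y ∧ x * y = y * x) (by
        intro s hs
        let D : Subgroup G := ⨅ x : s, Subgroup.centralizer {x.1}
        have : D.FiniteIndex :=
          Subgroup.finiteIndex_iInf fun x => (cent_iff _).2 (hs x.1 x.2)
        have : Infinite (D.subgroupOf (FC G)) := by
          by_contra hn
          rw [not_infinite_iff_finite] at hn
          have := (D.subgroupOf (FC G)).index_mul_card
          rw [Nat.card_eq_zero_of_infinite (α := FC G)] at this
          exact mul_ne_zero Subgroup.FiniteIndex.index_ne_zero Nat.card_pos.ne' this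
        have hinf : (range fun y : D.subgroupOf (FC G) => (y.1.1 : G)).Infinite :=
          infinite_range_of_injective fun a b e => Subtype.ext (Subtype.ext e)
        obtain ⟨_, ⟨y, rfl⟩, hy⟩ := hinf.exists_notMem_finset s
        refine ⟨y.1.1, y.1.2, fun x hx => ⟨fun e => hy (by show y.1.1 ∈ s; rw [← e]; exact hx), ?_⟩⟩
        have := Subgroup.mem_iInf.1 (Subgroup.mem_subgroupOf.1 y.2) ⟨x, hx⟩
        exact (Subgroup.mem_centralizer_singleton_iff.1 this).symm)
    have hinj : Function.Injective f := by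
      intro m n e
      rcases lt_trichotomy m n with h | h | h
      · exact absurd e (hf m n h).1
      · exact h
      · exact absurd e.symm (hf n m h).1
    have hcm : ∀ x ∈ range f, ∀ y ∈ range f, x * y = y * x := by
      rintro _ ⟨m, rfl⟩ _ ⟨n, rfl⟩
      rcases lt_trichotomy m n with h | h | h
      · exact (hf m n h).2
      · rw [h]
      · exact (hf n m h).2.symm
    have : Infinite (Subgroup.closure (range f)) := Infinite.of_injective
      (fun n => ⟨f n, Subgroup.subset_closure ⟨n, rfl⟩⟩) fun m n e => hinj (congrArg Subtype.val e)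
    refine of_sub (Subgroup.closure (range f)) (comm_case _ ?_)
    have := Subgroup.isMulCommutative_closure hcm
    exact fun x y => this.is_comm.comm x y

theorem result (G : Type u) [Group G] [Countable G] [Infinite G] :
    ∃ A B : Set G, A.Infinite ∧ B.Infinite ∧
      ∀ g : G, ∃! p : A × B, (p.1 : G) * (p.2 : G) = g := by
  obtain ⟨A, B, hA, hB, hs, hi⟩ := main G
  refine ⟨A, B, hA, hB, fun g => ?_⟩
  obtain ⟨a, ha, b, hb, hab⟩ := hs g
  refine ⟨(⟨a, ha⟩, ⟨b, hb⟩), hab, ?_⟩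
  rintro ⟨⟨a', ha'⟩, ⟨b', hb'⟩⟩ e
  have e1 : a' = a := hi a' ha' b' hb' a ha b hb (e.trans hab.symm)
  subst e1
  have e2 : b' = b := mul_left_cancel (e.trans hab.symm)
  subst e2
  rfl

end Pool.Agent.Results.MP_b3a091_al.Factor
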